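import Pool.Agent.NSA.Const

/-!
# Constant potential: the multiplicity of the eigenvalue does not depend on the weights
-/

namespace Pool.Agent.Results.MP_2edb3b_an.ConstantPotential

open Pool.Agent.NSA

/-- For constant potential `c` and arbitrary nonzero complex weights the dimension per fundamental
domain of the eigenspace for `c` is the greatest value of the number of isolated vertices of
`G - S` minus `|S|`. -/
theorem result {V D : Type*} [Fintype V] [Fintype D] (G : Gr V D) (v0 : V) (c : ℂ) (a : D → ℂ)
    (ha : ∀ d, a d ≠ 0) (lift : V → G.Cov v0) (hl : ∀ x, (lift x).1.2 = x) :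
    IsGreatest (Set.range fun S : Finset V => ((G.iso S).card : ℝ) - S.card)
      (G.dim lift (fun _ => c) a c) :=
  dim_const ha (fun _ => rfl) lift hl

end Pool.Agent.Results.MP_2edb3b_an.ConstantPotential
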