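import Pool.Agent.NSA.Comp

/-!
# The index theorem for lifted operators with arbitrary complex coefficients

`G` is a finite connected multigraph (loops and multiple edges allowed). The lifted operator on
`ℓ²` of the universal cover has complex coefficients `b x` and `a d ≠ 0`, without any symmetry.
-/

namespace Pool.Agent.Results.MP_2edb3b_an.IndexTheorem

open Pool.Agent.NSA

/-- `lam` has a nonzero square summable eigenfunction on the universal cover iff for some vertex
set `S` more than `|S|` components of `G - S` are trees having the eigenvalue `lam`; the dimension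
of the eigenspace per fundamental domain is the greatest value of the number of these components
minus `|S|`. -/
theorem result {V D : Type*} [Fintype V] [Fintype D] (G : Gr V D)
    (hconn : ∀ x z, ∃ l, G.IsWalk Finset.univ x l z) (v0 : V)
    (b : V → ℂ) (a : D → ℂ) (ha : ∀ d, a d ≠ 0) (lam : ℂ) :
    ((∃ u : G.Cov v0 → ℂ, G.Sol b a lam u ∧ u ≠ 0) ↔
      ∃ S : Finset V, S.card < (G.TCE b a lam S).card) ∧
    ∀ lift : V → G.Cov v0, (∀ x, (lift x).1.2 = x) →
      IsGreatest (Set.range fun S : Finset V => ((G.TCE b a lam S).card : ℝ) - S.card)
        (G.dim lift b a lam) :=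
  ⟨exists_iff_S hconn ha v0, fun lift hl => dim_max ha lift hl⟩

end Pool.Agent.Results.MP_2edb3b_an.IndexTheorem
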