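import Pool.Agent.NSA.Fix

/-!
# The graphs with Aomoto's universality
-/

namespace Pool.Agent.Results.MP_2edb3b_an.UniversalGraphs

open Pool.Agent.NSA

open Classical in
/-- For a finite connected leafless multigraph with an edge the following are equivalent:
existence of a point eigenvalue is the same for all real Jacobi matrices of the graph; the same
for varying potential and each fixed choice of the weights; the same for some fixed choice of the
weights; no complex coefficients at all give an eigenvalue; for every vertex set `S` at most `|S|`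
components of `G - S` are trees. -/
theorem result {V D : Type*} [Fintype V] [Fintype D] (G : Gr V D)
    (hconn : ∀ x z, ∃ l, G.IsWalk Finset.univ x l z)
    (hleaf : ∀ x, (Finset.univ.filter (fun d => G.s d = x)).card ≠ 1) (hD : Nonempty D) (v0 : V) :
    [G.Univ v0,
      ∀ a : D → ℝ, (∀ d, a (G.r d) = a d) → (∀ d, 0 < a d) → G.UnivB v0 a,
      ∃ a : D → ℝ, (∀ d, a (G.r d) = a d) ∧ (∀ d, 0 < a d) ∧ G.UnivB v0 a,
      ∀ (b : V → ℂ) (a : D → ℂ) (lam : ℂ), (∀ d, a d ≠ 0) →
        ∀ u : G.Cov v0 → ℂ, G.Sol b a lam u → u = 0,
      ∀ S : Finset V, (G.TC S).card ≤ S.card].TFAE :=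
  universal_tfae hconn (cycle_of_leafless hleaf hD) v0

end Pool.Agent.Results.MP_2edb3b_an.UniversalGraphs
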