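import Pool.Agent.NSA.AdjMain

/-!
# Weighted adjacency operators: the graphs for which having a point eigenvalue does not depend on
the weights
-/

namespace Pool.Agent.Results.MP_2edb3b_an.WeightUniversality

open Pool.Agent.NSA

open Classical in
/-- For a finite connected leafless multigraph with an edge and zero potential, the existence of a
point eigenvalue of the lift does not depend on the positive symmetric weights iff some `S` leaves
more than `|S|` isolated vertices in `G - S`, or for every `S` at most `|S|` components of `G - S`
are trees with more than one vertex. -/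
theorem result {V D : Type*} [Fintype V] [Fintype D] (G : Gr V D)
    (hconn : ∀ x z, ∃ l, G.IsWalk Finset.univ x l z)
    (hleaf : ∀ x, (Finset.univ.filter (fun d => G.s d = x)).card ≠ 1) (hD : Nonempty D) (v0 : V) :
    (∀ a a' : D → ℝ, (∀ d, a (G.r d) = a d) → (∀ d, 0 < a d) → (∀ d, a' (G.r d) = a' d) →
      (∀ d, 0 < a' d) → G.HasPt v0 (fun _ => 0) a → G.HasPt v0 (fun _ => 0) a') ↔
    ((∃ S : Finset V, S.card < (G.iso S).card) ∨
      ∀ S : Finset V, ((G.TC S).filter (fun C => 1 < C.card)).card ≤ S.card) :=
  adj_iff hconn (cycle_of_leafless hleaf hD) v0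

end Pool.Agent.Results.MP_2edb3b_an.WeightUniversality
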